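import Mathlib
import Pool.Agent.W200.MR.Stm

/-! helper200's S18410 project, piece FURb: an invariant measure on two points interchanged by the
shift is ergodic of zero entropy. -/

set_option autoImplicit false

namespace Pool.Agent.W287.MR

open Finset Filter Topology MeasureTheory
open Pool.Agent.W200.MR

/-- the first point -/
noncomputable def y0 : ℤ → ℂ := fun z => (-1 : ℂ) ^ z

/-- the second point -/
noncomputable def y1 : ℤ → ℂ := fun z => -(-1 : ℂ) ^ z

theorem shift_y0 : (fun z : ℤ => y0 (z + 1)) = y1 := by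
  funext z
  unfold y0 y1
  rw [zpow_add_one₀ (by norm_num : (-1 : ℂ) ≠ 0)]
  ring

theorem shift_y1 : (fun z : ℤ => y1 (z + 1)) = y0 := by
  funext z
  unfold y0 y1
  rw [zpow_add_one₀ (by norm_num : (-1 : ℂ) ≠ 0)]
  ring

theorem negMulLog_le_one {x : ℝ} (h0 : 0 ≤ x) : Real.negMulLog x ≤ 1 := by
  rcases h0.eq_or_lt with h | h
  · rw [← h, Real.negMulLog_zero]
    exact zero_le_one
  · unfold Real.negMulLog
    have h1 := Real.one_sub_inv_le_log_of_pos h
    have h2 : x * (1 - x⁻¹) ≤ x * Real.log x := mul_le_mul_of_nonneg_left h1 h.le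
    have h3 : x * (1 - x⁻¹) = x - 1 := by
      rw [mul_sub, mul_one, mul_inv_cancel₀ h.ne']
    rw [h3] at h2
    linarith

theorem t_FURb : S_FURb := by
  classical
  intro μ hμ hmp hae
  have hae' : ∀ᵐ x ∂μ, x = y0 ∨ x = y1 := by
    filter_upwards [hae] with x hx
    rcases hx with h | h
    · left
      funext z
      exact h z
    · right
      funext z
      exact h z
  refine ⟨⟨hmp, ⟨?_⟩⟩, ?_⟩
  · intro s _ hs
    rw [Filter.eventuallyConst_set]
    have h01 : y0 ∈ s ↔ y1 ∈ s := by
      have h1 : y0 ∈ (fun x : ℤ → ℂ => fun z : ℤ => x (z + 1)) ⁻¹' s ↔ y1 ∈ s := by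
        rw [Set.mem_preimage]
        show (fun z : ℤ => y0 (z + 1)) ∈ s ↔ y1 ∈ s
        rw [shift_y0]
      rw [hs] at h1
      exact h1
    by_cases h : y0 ∈ s
    · left
      filter_upwards [hae'] with x hx
      rcases hx with hx | hx
      · rw [hx]
        exact h
      · rw [hx]
        exact h01.1 h
    · right
      filter_upwards [hae'] with x hx
      rcases hx with hx | hx
      · rw [hx]
        exact h
      · rw [hx]
        exact fun h1 => h (h01.2 h1)
  · intro k g _
    have hb : ∀ n : ℕ, 0 ≤ (∑ a : Fin n → Fin k, Real.negMulLog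
        (μ {x | ∀ i : Fin n, g (fun z : ℤ => x (z + ((i : ℕ) : ℤ))) = a i}).toReal) ∧
        (∑ a : Fin n → Fin k, Real.negMulLog
        (μ {x | ∀ i : Fin n, g (fun z : ℤ => x (z + ((i : ℕ) : ℤ))) = a i}).toReal) ≤ 2 := by
      intro n
      have hnn : ∀ s : Set (ℤ → ℂ), 0 ≤ Real.negMulLog (μ s).toReal := by
        intro s
        apply Real.negMulLog_nonneg ENNReal.toReal_nonneg
        have h1 : μ s ≤ 1 := prob_le_one
        have h2 := ENNReal.toReal_mono ENNReal.one_ne_top h1
        rwa [ENNReal.toReal_one] at h2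
      refine ⟨Finset.sum_nonneg (fun a _ => hnn _), ?_⟩
      set a0 : Fin n → Fin k := fun i => g (fun z : ℤ => y0 (z + ((i : ℕ) : ℤ))) with ha0
      set a1 : Fin n → Fin k := fun i => g (fun z : ℤ => y1 (z + ((i : ℕ) : ℤ))) with ha1
      have hsub : ∑ a : Fin n → Fin k, Real.negMulLog
          (μ {x | ∀ i : Fin n, g (fun z : ℤ => x (z + ((i : ℕ) : ℤ))) = a i}).toReal =
          ∑ a ∈ ({a0, a1} : Finset (Fin n → Fin k)), Real.negMulLog
          (μ {x | ∀ i : Fin n, g (fun z : ℤ => x (z + ((i : ℕ) : ℤ))) = a i}).toReal := by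
        symm
        apply Finset.sum_subset (Finset.subset_univ _)
        intro a _ ha
        rw [Finset.mem_insert, Finset.mem_singleton, not_or] at ha
        have h0 : μ {x | ∀ i : Fin n, g (fun z : ℤ => x (z + ((i : ℕ) : ℤ))) = a i} = 0 := by
          rw [measure_eq_zero_iff_ae_notMem]
          filter_upwards [hae'] with x hx hmem
          rcases hx with hx | hx
          · apply ha.1
            funext i
            rw [ha0]
            have h1 := hmem i
            rw [hx] at h1
            exact h1.symm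
          · apply ha.2
            funext i
            rw [ha1]
            have h1 := hmem i
            rw [hx] at h1
            exact h1.symm
        rw [h0, ENNReal.toReal_zero, Real.negMulLog_zero]
      rw [hsub]
      calc
        ∑ a ∈ ({a0, a1} : Finset (Fin n → Fin k)), Real.negMulLog
            (μ {x | ∀ i : Fin n, g (fun z : ℤ => x (z + ((i : ℕ) : ℤ))) = a i}).toReal
          ≤ ∑ _a ∈ ({a0, a1} : Finset (Fin n → Fin k)), (1 : ℝ) :=
            Finset.sum_le_sum (fun a _ => negMulLog_le_one ENNReal.toReal_nonneg)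
        _ = ((({a0, a1} : Finset (Fin n → Fin k)).card : ℕ) : ℝ) := by
            rw [Finset.sum_const, nsmul_eq_mul, mul_one]
        _ ≤ 2 := by exact_mod_cast Finset.card_le_two
    refine tendsto_of_tendsto_of_tendsto_of_le_of_le tendsto_const_nhds
      (tendsto_const_div_atTop_nhds_zero_nat 2) ?_ ?_
    · intro n
      exact div_nonneg (hb n).1 (Nat.cast_nonneg n)
    · intro n
      exact div_le_div_of_nonneg_right (hb n).2 (Nat.cast_nonneg n)

end Pool.Agent.W287.MR
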